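import Pool.Agent.helper36.NF.Spec

set_option autoImplicit false

open Polynomial Filter

namespace Pool.Agent.NoFormula

theorem POL_geo (X : ℤ) (e : ℕ) : (X - 1) * ∑ c ∈ Finset.range e, X ^ c = X ^ e - 1 :=
  mul_geom_sum X e

theorem POL_ub (X M : ℤ) (e : ℕ) (b : ℕ → ℤ) (hX : 1 ≤ X) (hb : ∀ c < e, |b c| ≤ M) :
    (X - 1) * |∑ c ∈ Finset.range e, b c * X ^ c| ≤ M * (X ^ e - 1) := by
  have h1 : |∑ c ∈ Finset.range e, b c * X ^ c| ≤ ∑ c ∈ Finset.range e, M * X ^ c := by
    refine (Finset.abs_sum_le_sum_abs _ _).trans (Finset.sum_le_sum fun c hc => ?_)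
    rw [abs_mul, abs_of_nonneg (pow_nonneg (by linarith : (0:ℤ) ≤ X) c)]
    exact mul_le_mul_of_nonneg_right (hb c (Finset.mem_range.1 hc)) (pow_nonneg (by linarith) c)
  rw [← Finset.mul_sum] at h1
  calc (X - 1) * |∑ c ∈ Finset.range e, b c * X ^ c|
      ≤ (X - 1) * (M * ∑ c ∈ Finset.range e, X ^ c) :=
        mul_le_mul_of_nonneg_left h1 (by linarith)
    _ = M * (X ^ e - 1) := by rw [← POL_geo]; ring

theorem POL_lb (X M : ℤ) (e : ℕ) (b : ℕ → ℤ) (hM : 0 ≤ M) (hX : 2 * M + 1 ≤ X) (hX2 : 2 ≤ X)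
    (hb : ∀ c < e, |b c| ≤ M) (he : b e ≠ 0) :
    X ^ e < 2 * |∑ c ∈ Finset.range (e + 1), b c * X ^ c| := by
  have h1 := POL_ub X M e b (by linarith) hb
  rw [Finset.sum_range_succ]
  set S := ∑ c ∈ Finset.range e, b c * X ^ c with hS
  have h2 : |b e * X ^ e| - |S| ≤ |S + b e * X ^ e| := by
    have := abs_sub_abs_le_abs_sub (b e * X ^ e) (-S)
    rw [abs_neg, sub_neg_eq_add, add_comm (b e * X ^ e) S] at this
    exact this
  have hp : 0 ≤ X ^ e := pow_nonneg (by linarith : (0:ℤ) ≤ X) e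
  have h3 : X ^ e ≤ |b e * X ^ e| := by
    rw [abs_mul, abs_of_nonneg hp]
    have : 1 ≤ |b e| := Int.one_le_abs he
    nlinarith
  have h4 : 2 * |S| ≤ X ^ e - 1 := by
    have h6 : 0 ≤ X ^ e - 1 := by
      have := one_le_pow₀ (by linarith : (1:ℤ) ≤ X) (n := e)
      linarith
    have h5 : (X - 1) * (2 * |S|) ≤ (X - 1) * (X ^ e - 1) := by
      nlinarith
    exact le_of_mul_le_mul_left h5 (by linarith)
  linarith

theorem POL_cyc (J : ℕ) : Irreducible (X ^ (2 ^ J) + 1 : ℚ[X]) := by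
  have h := Polynomial.cyclotomic.irreducible_rat (n := 2 ^ (J + 1)) (by positivity)
  rw [Polynomial.cyclotomic_prime_pow_eq_geom_sum Nat.prime_two] at h
  have h2 : (∑ i ∈ Finset.range 2, (X ^ (2 ^ J)) ^ i : ℚ[X]) = X ^ (2 ^ J) + 1 := by
    simp [Finset.sum_range_succ]
    ring
  rw [h2] at h
  exact h

/-- the algebraic part -/
theorem POL_alg (J : ℕ) (G q : ℤ[X]) (k : ℕ) (hd : 1 ≤ G.natDegree)
    (h : C (G.leadingCoeff ^ k) * (X ^ (2 ^ J) + 1) = q * G) :
    G = C G.leadingCoeff * (X ^ (2 ^ J) + 1) := by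
  have hG0 : G ≠ 0 := by
    rintro rfl
    simp at hd
  have hg0 : G.leadingCoeff ≠ 0 := leadingCoeff_ne_zero.2 hG0
  set φ : ℤ →+* ℚ := Int.castRingHom ℚ with hφ
  have hφi : Function.Injective φ := Int.cast_injective
  have hmap : C ((φ G.leadingCoeff) ^ k) * (X ^ (2 ^ J) + 1) = q.map φ * G.map φ := by
    have := congrArg (Polynomial.map φ) h
    simpa [Polynomial.map_mul] using this
  have hne : (φ G.leadingCoeff) ^ k ≠ 0 := by
    apply pow_ne_zero
    intro h0
    apply hg0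
    apply hφi
    rw [h0, map_zero]
  have hunit : IsUnit (C ((φ G.leadingCoeff) ^ k) : ℚ[X]) := by
    rw [Polynomial.isUnit_C]
    exact isUnit_iff_ne_zero.2 hne
  have hdvd : G.map φ ∣ (X ^ (2 ^ J) + 1 : ℚ[X]) := by
    rw [← hunit.dvd_mul_left, hmap]
    exact dvd_mul_left _ _
  have hirr := POL_cyc J
  have hdeg : (G.map φ).natDegree = G.natDegree := natDegree_map_eq_of_injective hφi G
  have hnu : ¬ IsUnit (G.map φ) := by
    intro hu
    have := natDegree_eq_zero_of_isUnit hu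
    omega
  obtain ⟨w, hw⟩ := hdvd
  rcases hirr.isUnit_or_isUnit hw with hu | hu
  · exact absurd hu hnu
  obtain ⟨u, hu0, hu⟩ := Polynomial.isUnit_iff.1 hu
  have hmon : (X ^ (2 ^ J) + 1 : ℚ[X]).leadingCoeff = 1 := by
    have : (X ^ (2 ^ J) + 1 : ℚ[X]).Monic := by
      have h3 := monic_X_pow_add_C (1 : ℚ) (n := 2 ^ J) (by positivity)
      simpa using h3
    exact this
  have hlc : φ G.leadingCoeff * u = 1 := by
    have h4 := congrArg Polynomial.leadingCoeff hw
    rw [hmon, leadingCoeff_mul, ← hu, leadingCoeff_C, leadingCoeff_map_of_injective hφi] at h4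
    exact h4.symm
  apply Polynomial.map_injective φ hφi
  have h5 : Polynomial.map φ (C G.leadingCoeff * (X ^ (2 ^ J) + 1)) =
      C (φ G.leadingCoeff) * (X ^ (2 ^ J) + 1 : ℚ[X]) := by
    simp
  rw [h5, hw, ← hu, mul_comm (G.map φ) (C u), ← mul_assoc, ← C_mul, hlc, C_1, one_mul]

theorem POL_fin (X f g : ℤ) (E s : ℕ) (hX : Even X) (hE : 1 ≤ E) (hX2 : 2 ≤ X)
    (h1 : 2 ^ s * f = g * (X ^ E + 1)) (h2 : f ∣ X ^ E + 1) : |f| = X ^ E + 1 := by
  obtain ⟨h, hh⟩ := h2
  have hpos : 0 < X ^ E + 1 := by positivity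
  have hf0 : f ≠ 0 := by
    rintro rfl
    rw [zero_mul] at hh
    omega
  have h3 : 2 ^ s = g * h := by
    rw [hh] at h1
    have : f * 2 ^ s = f * (g * h) := by linarith [h1]
    exact mul_left_cancel₀ hf0 this
  have hodd : Odd (X ^ E + 1) := by
    apply Even.add_one
    exact hX.pow_of_ne_zero (by omega)
  have hho : Odd h := by
    rw [hh] at hodd
    exact (Int.odd_mul.1 hodd).2
  have hcop : IsCoprime h ((2 : ℤ) ^ s) := by
    apply IsCoprime.pow_right
    obtain ⟨k, hk⟩ := hho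
    exact ⟨1, -k, by rw [hk]; ring⟩
  have hun : IsUnit h := hcop.isUnit_of_dvd ⟨g, by rw [h3]; ring⟩
  have habs : |h| = 1 := Int.isUnit_iff_abs_eq.1 hun
  have h6 : |X ^ E + 1| = |f| * |h| := by rw [hh, abs_mul]
  rw [habs, mul_one, abs_of_pos hpos] at h6
  exact h6.symm

theorem POL (hPDV : PDV_stmt) : POL_stmt := by
  intro J d hd
  refine ⟨2 * 2 ^ J + 5, ?_⟩
  intro H x hH hHx hxe B hBd hB s f hs hf hdvd
  set E : ℕ := 2 ^ J with hE
  have hE1 : 1 ≤ E := Nat.one_le_two_pow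
  have hH0 : 0 ≤ H := by linarith
  have hbig : 2 * (2 * H) ^ (E + 1) + 1 ≤ x := by
    have h1 : (2 * H) ^ (E + 1) ≤ H ^ (2 * E + 2) := by
      calc (2 * H) ^ (E + 1) ≤ (H ^ 2) ^ (E + 1) :=
            pow_le_pow_left₀ (by linarith) (by nlinarith) _
        _ = H ^ (2 * E + 2) := by rw [← pow_mul]; ring_nf
    have h2 : 1 ≤ H ^ (2 * E + 2) := one_le_pow₀ (by linarith)
    have h3 : H ^ (2 * E + 5) = H ^ (2 * E + 2) * H ^ 3 := by rw [← pow_add]
    have h4 : 8 ≤ H ^ 3 := by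
      calc (8 : ℤ) = 2 ^ 3 := by norm_num
        _ ≤ H ^ 3 := pow_le_pow_left₀ (by norm_num) hH 3
    nlinarith
  have h2H : 2 * H ≤ (2 * H) ^ (E + 1) := by
    calc 2 * H = (2 * H) ^ 1 := (pow_one _).symm
      _ ≤ (2 * H) ^ (E + 1) := pow_le_pow_right₀ (by linarith) (by omega)
  have hx4 : 4 * H + 1 ≤ x := by linarith
  have hx2 : 2 ≤ x := by linarith
  have hlb := POL_lb x H d B hH0 (by linarith) hx2 (fun c hc => hB c hc.le) hBd
  rw [← hf] at hlb
  have hsp : (0 : ℤ) < 2 ^ s := by positivity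
  have hlb2 : x ^ d < 2 * H * |f| := by
    have h1 : |(2 : ℤ) ^ s * f| = 2 ^ s * |f| := by rw [abs_mul, abs_of_pos hsp]
    rw [h1] at hlb
    have h2 : 2 ^ s * |f| ≤ H * |f| := mul_le_mul_of_nonneg_right hs (abs_nonneg f)
    linarith
  have hpos : 0 < x ^ E + 1 := by positivity
  have hfle : |f| ≤ x ^ E + 1 := by
    have := Int.le_of_dvd hpos ((abs_dvd _ _).2 hdvd)
    exact this
  rcases lt_or_ge E d with hlt | hge
  · exfalso
    have h1 : x ^ (E + 1) ≤ x ^ d := pow_le_pow_right₀ (by linarith) hlt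
    have h2 : x ^ (E + 1) = x ^ E * x := pow_succ _ _
    have h3 : 1 ≤ x ^ E := one_le_pow₀ (by linarith)
    have h4 : x ^ E * (4 * H) ≤ x ^ E * x := mul_le_mul_of_nonneg_left (by linarith) (by linarith)
    have h5 : 2 * H * |f| ≤ 2 * H * (x ^ E + 1) := mul_le_mul_of_nonneg_left hfle (by linarith)
    nlinarith
  -- main case
  set G : ℤ[X] := ∑ c ∈ Finset.range (d + 1), monomial c (B c) with hGdef
  have hGc : ∀ i, G.coeff i = if i ≤ d then B i else 0 := by
    intro i
    rw [hGdef, Polynomial.finset_sum_coeff]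
    simp only [coeff_monomial]
    rw [Finset.sum_ite_eq']
    simp only [Finset.mem_range, Nat.lt_succ_iff]
  have hGd : G.natDegree = d := by
    apply le_antisymm
    · rw [Polynomial.natDegree_le_iff_coeff_eq_zero]
      intro i hi
      rw [hGc, if_neg (by omega)]
    · apply Polynomial.le_natDegree_of_ne_zero
      rw [hGc, if_pos le_rfl]
      exact hBd
  have hGH : ∀ i, |G.coeff i| ≤ H := by
    intro i
    rw [hGc]
    split_ifs with hi
    · exact hB i hi
    · simpa using hH0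
  have hGe : G.eval x = 2 ^ s * f := by
    rw [hf, hGdef, Polynomial.eval_finset_sum]
    simp [eval_monomial]
  have hΦd : (X ^ E + 1 : ℤ[X]).natDegree ≤ E := by
    have := natDegree_X_pow_add_C (n := E) (r := (1 : ℤ))
    rw [C_1] at this
    exact this.le
  have hΦc : ∀ i, |(X ^ E + 1 : ℤ[X]).coeff i| ≤ 1 := by
    intro i
    rw [coeff_add, coeff_X_pow, coeff_one]
    split_ifs with h1 h2 <;> first | omega | simp
  obtain ⟨q, r, hqr, hrd, hrc⟩ := hPDV d H G hd (by linarith) hGd hGH E 1 (X ^ E + 1) hΦd hΦc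
  set M : ℤ := (2 * H) ^ (E + 1 - d) * 1 with hM
  have hM0 : 0 ≤ M := by rw [hM]; positivity
  have hMle : M ≤ (2 * H) ^ (E + 1) := by
    rw [hM, mul_one]
    exact pow_le_pow_right₀ (by linarith) (by omega)
  have hMle2 : M * (2 * H) ≤ (2 * H) ^ (E + 1) := by
    rw [hM, mul_one, ← pow_succ]
    exact pow_le_pow_right₀ (by linarith) (by omega)
  have hre : r.eval x = ∑ c ∈ Finset.range d, r.coeff c * x ^ c :=
    Polynomial.eval_eq_sum_range' hrd x
  have hfr : f ∣ r.eval x := by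
    have h1 := congrArg (Polynomial.eval x) hqr
    simp only [eval_mul, eval_C, eval_add, eval_pow, eval_X, eval_one] at h1
    rw [hGe] at h1
    have h2 : r.eval x = G.leadingCoeff ^ (E + 1 - d) * (x ^ E + 1) - q.eval x * (2 ^ s * f) := by
      linarith
    rw [h2]
    exact dvd_sub (Dvd.dvd.mul_left hdvd _) (Dvd.dvd.mul_left (Dvd.dvd.mul_left dvd_rfl _) _)
  have hub := POL_ub x M d (fun c => r.coeff c) (by linarith) (fun c _ => hrc c)
  rw [← hre] at hub
  have hr0 : r.eval x = 0 := by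
    by_contra hne
    have h1 : |f| ≤ |r.eval x| := by
      have := Int.le_of_dvd (abs_pos.2 hne) ((abs_dvd_abs _ _).2 hfr)
      exact this
    have h2 : (x - 1) * |f| ≤ M * (x ^ d - 1) :=
      (mul_le_mul_of_nonneg_left h1 (by linarith)).trans hub
    have h3 : M * (x ^ d - 1) ≤ M * (2 * H * |f|) := mul_le_mul_of_nonneg_left (by linarith) hM0
    have h4 : 0 < |f| := by
      by_contra h5
      have h6 : |f| = 0 := le_antisymm (not_lt.1 h5) (abs_nonneg f)
      rw [h6] at hlb2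
      have : 0 < x ^ d := by positivity
      linarith
    have h7 : (x - 1) * |f| ≤ (M * (2 * H)) * |f| := by linarith
    have h8 : x - 1 ≤ M * (2 * H) := le_of_mul_le_mul_right h7 h4
    have h9 : 0 < (2 * H) ^ (E + 1) := by positivity
    linarith
  have hr : r = 0 := by
    by_contra hne
    have h1 : r.coeff r.natDegree ≠ 0 := by
      rw [Polynomial.coeff_natDegree]
      exact leadingCoeff_ne_zero.2 hne
    have h2 := POL_lb x M r.natDegree (fun c => r.coeff c) hM0 (by linarith) hx2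
      (fun c _ => hrc c) h1
    rw [← Polynomial.eval_eq_sum_range (p := r) x, hr0, abs_zero, mul_zero] at h2
    have : 0 < x ^ r.natDegree := by positivity
    linarith
  rw [hr, add_zero] at hqr
  have halg := POL_alg J G q (E + 1 - d) (by omega) hqr
  have hfin : 2 ^ s * f = G.leadingCoeff * (x ^ E + 1) := by
    rw [← hGe]
    have := congrArg (Polynomial.eval x) halg
    simpa using this
  exact POL_fin x f G.leadingCoeff E s hxe hE1 hx2 hfin hdvd

end Pool.Agent.NoFormula
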